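import Pool.Agent.N688.RG.Rare
import Pool.Agent.N688.FB.Few

/-!
# Bohr sets of differences in many blocks of consecutive primes
-/

set_option autoImplicit false
set_option maxHeartbeats 4000000

namespace Pool.Agent.N688.RG

open Finset Filter Topology
open Pool.Agent.H378R2 Pool.Agent.H387R2 Pool.Agent.H387R2.MB Pool.Agent.H362R2.QT
open Pool.Agent.N688.RO Pool.Agent.N646.AC Pool.Agent.N688.FB

open Classical in
theorem blocks (k s : ℕ) (ε : ℝ) (hε : 0 < ε) :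
    ∃ (P0 d : ℕ) (l ρ δ : ℝ), 1 ≤ P0 ∧ (∀ p : ℕ, p.Prime → p ≤ k + 2 → p ∣ P0) ∧ 0 < l ∧ 0 < ρ ∧ 0 < δ ∧
    ∀ lam : ℝ, 0 < lam → ∃ κ : ℝ, 0 < κ ∧ ∀ᶠ N : ℕ in atTop, ∀ H : ℕ,
      lam * Real.log N ≤ H → (P0 : ℝ) * H ≤ l * Real.log N →
      ∃ (Θ : Finset ℝ) (r : ℝ), Θ.card ≤ d ∧ ρ ≤ r ∧ r ≤ 1 ∧ δ * H ≤ (Bz Θ r H).card ∧
        (((Bz Θ r H).filter (fun b => ¬ ∀ j : ℕ, 1 ≤ j → j ≤ s →
          κ * (H : ℝ) ^ k ≤ ext k H (fun x => StrictMono x ∧ GoodB κ P0 (k + 1) N (univ.image x))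
            (j * |b|))).card : ℝ) ≤ ε * (Bz Θ r H).card := by
  obtain ⟨K, P0, l, hP0, hl, hdvd, hrare⟩ := rareB (k + 1) (k + 2) (by omega)
  obtain ⟨d, H₀, ρ, δ, κe, c₁, hρ, hδ, hκe, hc₁, hmain⟩ := main3 k s K ε hε
  refine ⟨P0, d, l, ρ, δ, hP0, fun p hp hpk => hdvd p hp (by omega), hl, hρ, hδ, fun lam hlam => ?_⟩
  obtain ⟨κ, hκ, hκC⟩ := hrare lam c₁ hlam hc₁
  refine ⟨min κ κe, lt_min hκ hκe, ?_⟩
  have tL : Tendsto (fun N : ℕ => lam * Real.log (N : ℝ)) atTop atTop :=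
    (Real.tendsto_log_atTop.comp tendsto_natCast_atTop_atTop).const_mul_atTop hlam
  filter_upwards [hκC, tL.eventually_ge_atTop ((max H₀ 1 : ℕ) : ℝ)] with N h1 h2
  intro H hH hu
  have hH' : max H₀ 1 ≤ H := by exact_mod_cast h2.trans hH
  have hH0 : H₀ ≤ H := (le_max_left _ _).trans hH'
  have hH2 : 1 ≤ H := (le_max_right _ _).trans hH'
  have hHr : (0 : ℝ) < H := by exact_mod_cast hH2
  have hmono : ∀ U : Finset ℤ, GoodB κ P0 (k + 1) N U → GoodB (min κ κe) P0 (k + 1) N U := by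
    intro U hU
    unfold GoodB at hU ⊢
    refine le_trans ?_ hU
    have h3 := Uni.CT_nonneg (pat P0 U)
    have h4 : (0 : ℝ) ≤ N / Real.log N ^ (k + 1 + 1) := by
      apply div_nonneg (Nat.cast_nonneg _)
      apply pow_nonneg
      exact Real.log_natCast_nonneg N
    exact mul_le_mul_of_nonneg_right (mul_le_mul_of_nonneg_right (min_le_left _ _) h3) h4
  obtain ⟨Θ, r, g1, g2, g3, g4, g5⟩ := hmain H hH0
    (fun x => StrictMono x ∧ GoodB (min κ κe) P0 (k + 1) N (univ.image x)) (by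
      rintro x c ⟨hx1, hx2⟩
      refine ⟨fun i j hij => by simpa using hx1 hij, ?_⟩
      have e : univ.image (fun i => x i + c) = (univ.image x).image (fun z => z + c) := by
        rw [image_image]
        rfl
      unfold GoodB at hx2 ⊢
      rw [e, pat_trans]
      exact hx2) (by
      refine le_trans ?_ (h1 H hH hu)
      rw [Nat.cast_le]
      apply card_le_card
      intro v hv
      rw [mem_filter] at hv ⊢
      refine ⟨hv.1, hv.2.1, ?_⟩
      rintro ⟨U, hU1, hU2, hU3⟩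
      refine hv.2.2 ⟨U.orderEmbOfFin hU2, (U.orderEmbOfFin hU2).injective, fun i => ?_, ?_, ?_, ?_⟩
      · exact hU1 (orderEmbOfFin_mem U hU2 i)
      · exact (U.orderEmbOfFin hU2).strictMono (by
          rw [Fin.lt_def]
          simp)
      · exact (U.orderEmbOfFin hU2).strictMono
      · have e : univ.image (fun i => U.orderEmbOfFin hU2 i) = U := by
          rw [← coe_inj, coe_image, coe_univ, Set.image_univ]
          exact range_orderEmbOfFin U hU2
        have h3 := hmono U hU3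
        have e' : univ.image (⇑(U.orderEmbOfFin hU2)) = U := e
        rw [e']
        exact h3)
  refine ⟨Θ, r, g1, g2, g3, g4, le_trans ?_ g5⟩
  rw [Nat.cast_le]
  apply card_le_card
  intro b hb
  rw [mem_filter] at hb ⊢
  refine ⟨hb.1, fun hall => hb.2 fun j hj1 hj2 => ?_⟩
  refine le_trans ?_ (hall j hj1 hj2)
  exact mul_le_mul_of_nonneg_right (min_le_right _ _) (by positivity)

end Pool.Agent.N688.RG
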