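import Pool.Agent.Y877.RgI
import Pool.Agent.Y877.RgB
import Pool.Agent.Y877.RoE

/-!
# Few configurations fail for blocks of `k + 1` consecutive primes

Adapted from `Pool.Agent.Y877.RO.fail_smallC`, `bad_convC` (helper877), which are for pairs.
-/

set_option autoImplicit false
set_option maxHeartbeats 4000000

namespace Pool.Agent.N688.RG

open Finset Filter Topology
open Pool.Agent.H378R2 Pool.Agent.H387R2 Pool.Agent.H387R2.MB Pool.Agent.H362R2.QT
open Pool.Agent.Y877.RO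

/-- the `n + t`, `t ∈ T`, are consecutive primes -/
def EvK (n : ℕ) (T : Finset ℕ) : Prop :=
  (∀ t ∈ T, (n + t).Prime) ∧ ∀ t ∈ T, ∀ t' ∈ T, ∀ s, t ≤ s → s ≤ t' → (n + s).Prime → s ∈ T

open Classical in
/-- the sets of `k + 1` shifts with many blocks of consecutive primes in the class `b` -/
def GoodK (κ : ℝ) (k N y b : ℕ) (T : Finset ℕ) : Prop :=
  κ * UU (k + 1) ((N : ℝ) / 4) y ≤ ∑ n ∈ Icc 1 ⌊3 * ((N : ℝ) / 4)⌋₊, nu ((N : ℝ) / 4) (Uni.WW y) b n *
    (if EvK n T then 1 else 0)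

/-- no set of `k + 1` shifts is good -/
def FailP (m K' k : ℕ) (κ : ℝ) (N y b : ℕ) (A : Fin (4 * m) × Fin K' → ℕ) : Prop :=
  Function.Injective A ∧ ∀ U ⊆ univ.image A, U.card = k + 1 → ¬ GoodK κ k N y b U

open Classical in
/-- the failing configurations -/
noncomputable def FailK (m K' k : ℕ) (κ : ℝ) (N y b : ℕ) (S : Finset ℕ) :
    Finset (Fin (4 * m) × Fin K' → ℕ) :=
  (Fintype.piFinset (fun _ => S)).filter (fun A => FailP m K' k κ N y b A)

theorem mem_FailK (m K' k : ℕ) (κ : ℝ) (N y b : ℕ) (S : Finset ℕ)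
    (A : Fin (4 * m) × Fin K' → ℕ) : A ∈ FailK m K' k κ N y b S ↔ (∀ x, A x ∈ S) ∧ Function.Injective A ∧
      ∀ U ⊆ univ.image A, U.card = k + 1 → ¬ GoodK κ k N y b U := by
  classical
  unfold FailK
  rw [mem_filter, Fintype.mem_piFinset]
  rfl

/-- the first `r` elements of a set -/
theorem lower (Q : Finset ℕ) : ∀ r : ℕ, r ≤ Q.card → ∃ T ⊆ Q, T.card = r ∧
    ∀ s ∈ Q, ∀ t ∈ T, s ≤ t → s ∈ T := by
  intro r
  induction r with
  | zero =>
    intro _
    exact ⟨∅, empty_subset _, card_empty, fun s _ t ht => absurd ht (notMem_empty t)⟩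
  | succ r ih =>
    intro hr
    obtain ⟨T, hT, hTc, hTl⟩ := ih (by omega)
    have hne : (Q \ T).Nonempty := by
      rw [← card_pos, card_sdiff_of_subset hT]
      omega
    obtain ⟨a, ha⟩ : ∃ a, a = (Q \ T).min' hne := ⟨_, rfl⟩
    have haQ : a ∈ Q \ T := by rw [ha]; exact min'_mem _ _
    rw [Finset.mem_sdiff] at haQ
    refine ⟨insert a T, insert_subset haQ.1 hT, by rw [card_insert_of_notMem haQ.2, hTc], ?_⟩
    intro s hs t ht hst
    rw [mem_insert] at ht ⊢
    by_cases hsT : s ∈ T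
    · exact Or.inr hsT
    rcases ht with rfl | ht
    · left
      have h1 : t ≤ s := by
        rw [ha]
        exact min'_le _ _ (Finset.mem_sdiff.2 ⟨hs, hsT⟩)
      omega
    · exact absurd (hTl s hs t ht hst) hsT

open Classical in
/-- a block of consecutive primes -/
theorem block (m K' r : ℕ) (hK' : 1 ≤ K') (hrm : r ≤ m) (A : Fin (4 * m) × Fin K' → ℕ) (hA : Function.Injective A)
    (n M0 : ℕ) (hAM : ∀ x, A x ≤ M0)
    (h1 : m ≤ ((univ : Finset (Fin (4 * m))).filter (fun g => ∃ j, (n + A (g, j)).Prime)).card)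
    (h2 : ∀ j ≤ M0, (n + j).Prime → ∃ x, A x = j) :
    ∃ T ⊆ univ.image A, T.card = r ∧ EvK n T := by
  obtain ⟨Q, hQ⟩ : ∃ Q, Q = (univ.image A).filter (fun t => (n + t).Prime) := ⟨_, rfl⟩
  have hQc : m ≤ Q.card := by
    refine h1.trans ?_
    have h3 : ∀ g ∈ (univ : Finset (Fin (4 * m))).filter (fun g => ∃ j, (n + A (g, j)).Prime),
        ∃ j, (n + A (g, j)).Prime := fun g hg => (mem_filter.1 hg).2
    have : Nonempty (Fin K') := ⟨⟨0, hK'⟩⟩
    choose! c hc using h3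
    apply card_le_card_of_injOn (fun g => A (g, c g))
    · intro g hg
      rw [mem_coe, hQ, mem_filter]
      exact ⟨mem_image_of_mem _ (mem_univ _), hc g hg⟩
    · intro g _ g' _ hgg
      exact (Prod.mk.inj (hA hgg)).1
  obtain ⟨T, hT, hTc, hTl⟩ := lower Q r (hrm.trans hQc)
  refine ⟨T, fun t ht => ?_, hTc, fun t ht => ?_, ?_⟩
  · have := hT ht
    rw [hQ] at this
    exact (mem_filter.1 this).1
  · have := hT ht
    rw [hQ] at this
    exact (mem_filter.1 this).2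
  · intro t _ t' ht' s _ hs2 hsp
    refine hTl s ?_ t' ht' hs2
    have h3 := hT ht'
    rw [hQ, mem_filter] at h3
    obtain ⟨x', _, hx'⟩ := mem_image.1 h3.1
    obtain ⟨x, hx⟩ := h2 s (hs2.trans (by rw [← hx']; exact hAM x')) hsp
    rw [hQ, mem_filter, ← hx]
    exact ⟨mem_image_of_mem _ (mem_univ _), by rw [hx]; exact hsp⟩

open Classical in
/-- few configurations fail -/
theorem fail_smallK (k m K' : ℕ) (hkm : k + 1 ≤ m) (hK' : 1 ≤ K') (δ c0 l0 : ℝ) (hδ : 0 < δ)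
    (hc0 : 0 < c0)
    (hlow : ∀ᶠ N : ℕ in atTop, LowD m K' δ c0 N ⌊l0 * Real.log N⌋₊ ⌊Real.log (Real.log N)⌋₊)
    (δ' lam : ℝ) (hδ' : 0 < δ') (hlam : 0 < lam) : ∃ κ : ℝ, 0 < κ ∧
    ∀ᶠ N : ℕ in atTop, ∀ (b : ℕ) (S : Finset ℕ), (∀ a ∈ S, a ≤ ⌊l0 * Real.log N⌋₊) →
      (∀ a ∈ S, Nat.Coprime (Uni.WW ⌊Real.log (Real.log N)⌋₊) (b + a)) →
      lam * rho ⌊Real.log (Real.log N)⌋₊ * Real.log N ≤ S.card →
      ((FailK m K' k κ N ⌊Real.log (Real.log N)⌋₊ b S).card : ℝ) ≤ δ' * (S.card : ℝ) ^ (4 * m * K') := by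
  have hKr : k + 1 ≤ 4 * m * K' := by
    calc k + 1 ≤ 4 * m := by omega
      _ ≤ _ := Nat.le_mul_of_pos_right _ hK'
  set J := 4 * m * K' - (k + 1) with hJ
  obtain ⟨C1, hC1, hupp1⟩ := upp_eventually (k + 1) hδ
  obtain ⟨C2, hC2, hupp2⟩ := upp_eventually (k + 1 + 2 * J) hδ
  set D := Dc (k + 1) J * (C1 / lam ^ (2 * J) + C2) with hD
  have hD0 : 0 ≤ D := by
    have : 0 ≤ Dc (k + 1) J := by unfold Dc; positivity
    positivity
  have hKpos : (0:ℝ) < ((4 * m * K' : ℕ) : ℝ) := by exact_mod_cast (by omega : 0 < 4 * m * K')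
  set κ0 : ℝ := 2 * c0 * δ' / ((1 + D) * ((4 * m * K' : ℕ) : ℝ) ^ (k + 1)) with hκ0
  have hκ : 0 < κ0 := by positivity
  refine ⟨κ0 ^ 2, by positivity, ?_⟩
  have tN : Tendsto (fun N : ℕ => (N : ℝ)) atTop atTop := tendsto_natCast_atTop_atTop
  have tL : Tendsto (fun N : ℕ => Real.log (N : ℝ)) atTop atTop := Real.tendsto_log_atTop.comp tN
  have tX : Tendsto (fun N : ℕ => (N : ℝ) / 4) atTop atTop := tN.atTop_div_const (by norm_num)
  filter_upwards [hlow, hupp1 2, hupp2 2, (LL_tendsto.comp tX).eventually_ge_atTop 1, tX.eventually MPhi_big,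
    tX.eventually_ge_atTop 4, tL.eventually_gt_atTop 0, tL.eventually_ge_atTop l0] with N h1 h2 h3 h4 h5 h6 h8 h9
  set X := (N:ℝ) / 4 with hX
  set y := ⌊Real.log (Real.log (N:ℝ))⌋₊ with hy
  have hL0 : 0 < LL X := by
    have : 1 ≤ LL X := h4
    linarith
  have hρ := rho_pos y
  have hMP : 0 < MPhi X := lt_of_lt_of_le (by positivity) h5
  have hMM : ⌊l0 * Real.log (N : ℝ)⌋₊ ≤ ⌊Real.log (N : ℝ) ^ (2 : ℝ)⌋₊ := by
    apply Nat.floor_le_floor
    rw [Real.rpow_two, sq]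
    exact mul_le_mul_of_nonneg_right h9 h8.le
  intro b S hSM0 hSc hScard
  have hSM : ∀ a ∈ S, a ≤ ⌊Real.log (N : ℝ) ^ (2 : ℝ)⌋₊ := fun a ha => (hSM0 a ha).trans hMM
  set g := LL X * rho y with hg
  have hg0 : 0 < g := by positivity
  have hW0 : (0:ℝ) < (Uni.WW y : ℝ) := by exact_mod_cast Uni.WW_pos y
  have hU : 0 < UU (k + 1) X y := by unfold UU; positivity
  have hsg : lam * g ≤ S.card := by
    refine le_trans ?_ hScard
    have : LL X ≤ Real.log N := by
      unfold LL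
      have e1 : Real.log X ≤ Real.log N := Real.log_le_log (by linarith) (by
        have : (0:ℝ) ≤ N := Nat.cast_nonneg N
        rw [hX]; linarith)
      linarith
    calc lam * g = lam * rho y * LL X := by rw [hg]; ring
      _ ≤ _ := mul_le_mul_of_nonneg_left this (by positivity)
  have hcardI : Fintype.card (Fin (4 * m) × Fin K') = k + 1 + J := by
    rw [Fintype.card_prod, Fintype.card_fin, Fintype.card_fin]
    omega
  have hbound := absSME (ι := Fin (4 * m) × Fin K') (Icc 1 ⌊3 * X⌋₊) (fun n => nu X (Uni.WW y) b n)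
    (fun n => nu_nonneg X _ b n) (fun n a => Rg δ X (n + a)) EvK S (k + 1) J hcardI
    (UU (k + 1) X y) g c0 C1 C2 lam κ0 hU hg0 hC1.le hC2.le hlam hsg hκ
    (fun T hT hTr => h2 b T hTr (fun a ha => hSM a (hT ha)))
    (fun R hR hRr => by
      have := h3 b R hRr (fun a ha => hSM a (hR ha))
      rw [UU_add] at this
      exact this)
    (FailK m K' k (κ0 ^ 2) N y b S) (by
      intro A hA
      rw [mem_FailK] at hA
      obtain ⟨hAS, hAinj, hAn⟩ := hA
      refine ⟨hAS, ?_⟩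
      have hl := h1 b A hAinj (fun x => hSM0 _ (hAS x)) (fun x => hSc _ (hAS x))
      have e1 : UU (4 * m * K') X y = UU (k + 1) X y / g ^ J := by
        rw [← UU_add]
        congr 1
        omega
      rw [e1] at hl
      refine hl.trans (sum_le_sum fun n _ => ?_)
      apply mul_le_mul_of_nonneg_left _ (nu_nonneg X _ b n)
      by_cases hc : ((m ≤ ((univ : Finset (Fin (4 * m))).filter (fun g => ∃ j, (n + A (g, j)).Prime)).card) ∧
        (∀ x, Rg δ X (n + A x))) ∧ ∀ j ≤ ⌊l0 * Real.log (N : ℝ)⌋₊, (n + j).Prime → ∃ x, A x = j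
      · rw [if_pos hc, if_pos]
        refine ⟨?_, hc.1.2⟩
        obtain ⟨T, hT1, hT2, hT3⟩ := block m K' (k + 1) hK' hkm A hAinj n _ (fun x => hSM0 _ (hAS x)) hc.1.1 hc.2
        refine ⟨T, hT1, hT2, ?_, hT3⟩
        have hU3 := hAn T hT1 hT2
        unfold GoodK at hU3
        rw [not_le] at hU3
        refine lt_of_le_of_lt (le_of_eq (sum_congr rfl fun n' _ => congrArg _ ?_)) hU3
        by_cases h9 : EvK n' T
        · simp only [h9, if_true]
        · simp only [h9, if_false]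
      · rw [if_neg hc]
        split_ifs <;> norm_num)
  rw [← hD] at hbound
  have e2 : κ0 * ((1 + D) / 2) * ((Fintype.card (Fin (4 * m) × Fin K') : ℝ) ^ (k + 1) * (S.card : ℝ) ^ (k + 1 + J)) =
      c0 * (δ' * (S.card : ℝ) ^ (4 * m * K')) := by
    have e3 : k + 1 + J = 4 * m * K' := by omega
    rw [hcardI, e3, hκ0]
    field_simp
  rw [e2] at hbound
  exact le_of_mul_le_mul_left hbound hc0

open Classical in
/-- the number of the blocks of consecutive primes `n + t`, `t ∈ T`, with `n ≤ N` -/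
noncomputable def piC (N : ℕ) (T : Finset ℕ) : ℕ := ((Icc 1 N).filter (fun n => EvK n T)).card

open Classical in
/-- the smoothed count of an event -/
noncomputable def STK (N : ℕ) (T : Finset ℕ) : ℝ :=
  ∑ n ∈ Icc 1 ⌊3 * ((N:ℝ) / 4)⌋₊, Phi ((n:ℝ) / ((N:ℝ) / 4)) * (if EvK n T then 1 else 0)

open Classical in
theorem STK_le (N M x0 : ℕ) (T : Finset ℕ) (hX : 0 < (N : ℝ) / 4) (hM : (M:ℝ) ≤ (N:ℝ) / 4) (hx0 : x0 ≤ M) :
    STK N (T.image (fun z => z + x0)) ≤ piC N T := by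
  unfold STK piC
  have h1 : ∀ n ∈ Icc 1 ⌊3 * ((N:ℝ) / 4)⌋₊, Phi ((n:ℝ) / ((N:ℝ) / 4)) *
      (if EvK n (T.image (fun z => z + x0)) then 1 else 0) ≤
      (if EvK n (T.image (fun z => z + x0)) then (1 : ℝ) else 0) := by
    intro n _
    have h2 := Phi_le_one ((n:ℝ) / ((N:ℝ) / 4))
    split_ifs
    · linarith
    · simp
  refine (sum_le_sum h1).trans ?_
  rw [← sum_filter, sum_const, nsmul_eq_mul, mul_one]
  apply Nat.cast_le.2
  refine card_le_card_of_injOn (fun n => n + x0) ?_ (fun a _ b _ h => by simpa using h)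
  intro n hn
  rw [mem_coe, mem_filter, mem_Icc] at hn
  obtain ⟨⟨hn1, hn2⟩, hev1, hev2⟩ := hn
  have hn3 : (n:ℝ) ≤ 3 * ((N:ℝ) / 4) := (Nat.le_floor_iff (by linarith)).1 hn2
  rw [mem_coe, mem_filter, mem_Icc]
  refine ⟨⟨by simp only; omega, ?_⟩, fun t ht => ?_, ?_⟩
  · simp only
    have h3 : ((n + x0 : ℕ) : ℝ) ≤ N := by
      push_cast
      have : (x0 : ℝ) ≤ M := by exact_mod_cast hx0
      linarith
    exact_mod_cast h3
  · have := hev1 (t + x0) (mem_image_of_mem (fun z => z + x0) ht)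
    simp only
    rw [show n + x0 + t = n + (t + x0) by ring]
    exact this
  · intro t ht t' ht' s hs1 hs2 hsp
    simp only at hsp
    have h4 := hev2 (t + x0) (mem_image_of_mem (fun z => z + x0) ht) (t' + x0)
      (mem_image_of_mem (fun z => z + x0) ht') (s + x0) (by omega) (by omega) (by
        rw [show n + (s + x0) = n + x0 + s by ring]
        exact hsp)
    obtain ⟨s', hs', hss⟩ := mem_image.1 h4
    have : s' = s := by omega
    rw [← this]
    exact hs'

open Classical in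
theorem STK_ge (κ : ℝ) (k N y : ℕ) (T : Finset ℕ) :
    (nGG (fun b X => GoodK κ k N y b X) y T : ℝ) * (κ * UU (k + 1) ((N : ℝ) / 4) y) ≤ STK N T := by
  have h1 : ∑ b ∈ range (Uni.WW y), ∑ n ∈ Icc 1 ⌊3 * ((N : ℝ) / 4)⌋₊, nu ((N : ℝ) / 4) (Uni.WW y) b n *
    (if EvK n T then 1 else 0) = STK N T := by
    unfold STK
    rw [sum_comm]
    apply sum_congr rfl
    intro n _
    rw [← sum_mul]
    congr 1
    have h2 : ∑ b ∈ range (Uni.WW y), nu ((N:ℝ) / 4) (Uni.WW y) b n =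
      nu ((N:ℝ) / 4) (Uni.WW y) (n % Uni.WW y) n := by
      apply sum_eq_single
      · intro b hb hne
        unfold nu
        rw [if_neg]
        intro h
        apply hne
        rw [Nat.ModEq, Nat.mod_eq_of_lt (mem_range.1 hb)] at h
        exact h.symm
      · intro h
        exact absurd (mem_range.2 (Nat.mod_lt _ (Uni.WW_pos y))) h
    rw [h2]
    unfold nu
    rw [if_pos (Nat.mod_modEq n _).symm]
  rw [← h1]
  unfold nGG
  rw [← nsmul_eq_mul]
  refine le_trans ?_ (sum_le_sum_of_subset_of_nonneg (filter_subset (fun b => (∀ t ∈ T, Nat.Coprime (Uni.WW y) (b + t)) ∧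
      GoodK κ k N y b T) _)
    (fun b _ _ => sum_nonneg fun n _ => mul_nonneg (nu_nonneg _ _ _ _) (by split_ifs <;> norm_num)))
  apply card_nsmul_le_sum
  intro b hb
  rw [mem_filter] at hb
  have := hb.2.2
  unfold GoodK at this
  refine this.trans (le_of_eq (sum_congr rfl fun n _ => ?_))
  congr

open Classical in
/-- a rare block is good in few classes -/
theorem bad_convK (k : ℕ) (C : ℝ) : ∀ᶠ N : ℕ in atTop, ∀ (κ κ' : ℝ), 0 ≤ κ → 0 < κ' →
    ∀ (T : Finset ℕ) (x0 : ℕ), T.card = k + 1 → (∀ t ∈ T, t + x0 ≤ ⌊Real.log N ^ C⌋₊) →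
    (piC N T : ℝ) < κ * Uni.CT T * (N / Real.log N ^ (k + 1)) →
    κ' * nGG (fun b X => GoodK κ' k N ⌊Real.log (Real.log N)⌋₊ b X) ⌊Real.log (Real.log N)⌋₊
      (T.image (fun z => z + x0)) ≤
      2 * κ * Uni.gT (Uni.WW ⌊Real.log (Real.log N)⌋₊) (T.image (fun z => z + x0)) := by
  have tN : Tendsto (fun N : ℕ => (N : ℝ)) atTop atTop := tendsto_natCast_atTop_atTop
  have tL : Tendsto (fun N : ℕ => Real.log (N : ℝ)) atTop atTop := Real.tendsto_log_atTop.comp tN
  have tX : Tendsto (fun N : ℕ => (N : ℝ) / 4) atTop atTop := tN.atTop_div_const (by norm_num)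
  filter_upwards [CTS k 1 C (by norm_num), M_le_sqrt C, (LL_tendsto.comp tX).eventually_ge_atTop 1,
    tX.eventually_ge_atTop (42 + k), tL.eventually_ge_atTop 1] with N h2 h5 h6 h7 hL1
  intro κ κ' hκ hκ' T x0 hT hTM hbad2
  set M := ⌊Real.log N ^ C⌋₊ with hM
  set X := (N:ℝ) / 4 with hX
  set y := ⌊Real.log (Real.log (N:ℝ))⌋₊ with hy
  set W := Uni.WW y with hW
  set L := Real.log (N:ℝ) with hL
  set T' := T.image (fun z => z + x0) with hT'
  have hL0 : 0 < L := by linarith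
  have hLL1 : 1 ≤ LL X := h6
  have hLL0 : 0 < LL X := by linarith
  have hρ := rho_pos y
  have hWpos : 0 < W := Uni.WW_pos y
  have hW0 : (0:ℝ) < W := by exact_mod_cast hWpos
  have hk0 : (0:ℝ) ≤ k := Nat.cast_nonneg k
  have hX40 : 40 ≤ X := by linarith
  have hX0 : 0 < X := by linarith
  have hNX : (N:ℝ) = 4 * X := by rw [hX]; ring
  have hLLL2 : 200 * LL X ≤ L := by
    unfold LL
    rw [show 200 * (Real.log X / 200) = Real.log X by ring, hL]
    apply Real.log_le_log hX0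
    linarith
  set V : ℝ := N / L ^ (k + 1) with hV
  have hV0 : 0 ≤ V := by positivity
  have hMl : X / 20 ≤ MPhi X := MPhi_ge X hX40
  have hMP : 0 < MPhi X := lt_of_lt_of_le (by positivity) hMl
  have hUe : ∀ g : ℝ, g * UU (k + 1) X y = ((1 / rho y) ^ (k + 1) * (g / W)) * (MPhi X / LL X ^ (k + 1)) := by
    intro g
    unfold UU
    rw [← hW, mul_pow, one_div_pow]
    field_simp
  have hU : 0 < UU (k + 1) X y := by unfold UU; positivity
  have hr1 : V ≤ MPhi X / LL X ^ (k + 1) := by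
    have h9 : (200:ℝ) ^ (k + 1) / 80 * V ≤ MPhi X / LL X ^ (k + 1) := by
      rw [hV, hNX]
      have : (200:ℝ) ^ (k + 1) / 80 * (4 * X / L ^ (k + 1)) = (X / 20) / (L / 200) ^ (k + 1) := by
        rw [div_pow]; field_simp; ring
      rw [this]
      apply div_le_div₀ (MPhi_nonneg X) hMl (by positivity)
      apply pow_le_pow_left₀ hLL0.le
      linarith
    refine le_trans ?_ h9
    have h10 : (1:ℝ) ≤ 200 ^ (k + 1) / 80 := by
      rw [le_div_iff₀ (by norm_num)]
      calc (1:ℝ) * 80 ≤ 200 ^ 1 := by norm_num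
        _ ≤ 200 ^ (k + 1) := pow_le_pow_right₀ (by norm_num) (by omega)
    exact le_mul_of_one_le_left hV0 h10
  have hMX : (M:ℝ) ≤ X := by
    refine h5.trans ?_
    rw [Real.sqrt_le_left hX0.le, sq]
    calc X = X * 1 := (mul_one X).symm
      _ ≤ X * X := mul_le_mul_of_nonneg_left (by linarith) hX0.le
  obtain ⟨t0, ht0⟩ : T.Nonempty := by rw [← card_pos]; omega
  have hx0 : x0 ≤ M := by have := hTM t0 ht0; omega
  have p3 : STK N T' ≤ piC N T := STK_le N M x0 T hX0 hMX hx0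
  have p4 := STK_ge κ' k N y T'
  have hT'c : T'.card = k + 1 := by rw [hT', card_image_of_injective _ (add_left_injective x0), hT]
  have p5 := (h2 T' hT'c (by
    intro t ht
    rw [hT', mem_image] at ht
    obtain ⟨t1, ht1, rfl⟩ := ht
    exact hTM t1 ht1)).2
  rw [hT', CT_shift, ← hT'] at p5
  have hCT := Uni.CT_nonneg T
  have p6 : (nGG (fun b X => GoodK κ' k N y b X) y T' : ℝ) * (κ' * UU (k + 1) X y) ≤
      2 * κ * Uni.gT W T' * UU (k + 1) X y := by
    refine p4.trans (p3.trans (hbad2.le.trans ?_))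
    rw [hUe]
    set zz := (1 / rho y) ^ (k + 1) * ((Uni.gT W T' : ℝ) / W) with hzz
    have hzz0 : 0 ≤ zz := by positivity
    calc κ * Uni.CT T * (N / L ^ (k + 1)) ≤ κ * ((1 + 1) * zz) * (MPhi X / LL X ^ (k + 1)) := by
          gcongr
      _ = _ := by rw [hzz]; ring
  have p7 : (κ' * nGG (fun b X => GoodK κ' k N y b X) y T') * UU (k + 1) X y ≤
      (2 * κ * Uni.gT W T') * UU (k + 1) X y := by
    refine le_trans (le_of_eq ?_) p6
    ring
  exact le_of_mul_le_mul_right p7 hU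

end Pool.Agent.N688.RG
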