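import Pool.Agent.N688.RG.Fail
import Pool.Agent.N688.RO.Vecs
import Pool.Agent.Y877.RgC

/-!
# Tuples without a subset with many blocks of consecutive primes are rare

Adapted from `Pool.Agent.Y877.RO.gapsRO` (helper877), which is for pairs.
-/

set_option autoImplicit false
set_option maxHeartbeats 4000000

namespace Pool.Agent.N688.RG

open Finset Filter Topology
open Pool.Agent.H378R2 Pool.Agent.H387R2 Pool.Agent.H387R2.MB Pool.Agent.H362R2.QT
open Pool.Agent.Y877.RO Pool.Agent.N688.RO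

/-- final computation -/
theorem fincomp3 (n k : ℕ) (hn : 1 ≤ n) (κA Cs κ' D M r a w Ac G : ℝ) (hκA : 0 < κA) (hκA1 : κA ≤ 1)
    (hCs : 0 < Cs) (hκ' : 0 < κ') (hD : 1 ≤ D) (hM : 0 < M) (hr : 0 < r) (ha : 0 ≤ a) (hw : 0 < w)
    (ha1 : a ≤ κA / (16 * D) * (M * r))
    (h1 : κA * M ^ n ≤ Ac) (h2 : Ac * (1 / (2 * D) * w * r ^ n) ≤ G)
    (h3 : G ≤ w * (a ^ n + κA / (16 * D * Cs ^ n) * (Cs * (M * r)) ^ n +
      2 * (κ' * κA / (32 * D * ((n : ℝ) ^ (k + 1) * Cs ^ n))) / κ' *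
        ((n : ℝ) ^ (k + 1) * (Cs * (M * r)) ^ n))) : False := by
  have hn0 : (0 : ℝ) < n := by exact_mod_cast hn
  have hD0 : 0 < D := by linarith
  have e1 : κA / (16 * D * Cs ^ n) * (Cs * (M * r)) ^ n = κA / (16 * D) * (M * r) ^ n := by
    rw [mul_pow]; field_simp
  have e2 : 2 * (κ' * κA / (32 * D * ((n : ℝ) ^ (k + 1) * Cs ^ n))) / κ' *
      ((n : ℝ) ^ (k + 1) * (Cs * (M * r)) ^ n) = κA / (16 * D) * (M * r) ^ n := by
    have hnk : (0 : ℝ) < (n : ℝ) ^ (k + 1) := by positivity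
    generalize (n : ℝ) ^ (k + 1) = t at hnk ⊢
    rw [mul_pow]; field_simp; ring
  rw [e1, e2] at h3
  have hc1 : κA / (16 * D) ≤ 1 := by
    rw [div_le_one (by positivity)]
    linarith
  have e3 : a ^ n ≤ κA / (16 * D) * (M * r) ^ n := by
    calc a ^ n ≤ (κA / (16 * D) * (M * r)) ^ n := pow_le_pow_left₀ ha ha1 n
      _ = (κA / (16 * D)) ^ n * (M * r) ^ n := by rw [mul_pow]
      _ ≤ κA / (16 * D) * (M * r) ^ n := by
          apply mul_le_mul_of_nonneg_right _ (by positivity)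
          exact pow_le_of_le_one (by positivity) hc1 (by omega)
  have e4 : κA * M ^ n * (1 / (2 * D) * w * r ^ n) ≤ G := (mul_le_mul_of_nonneg_right h1 (by positivity)).trans h2
  have e5 : κA * M ^ n * (1 / (2 * D) * w * r ^ n) = 8 * (w * (κA / (16 * D) * (M * r) ^ n)) := by
    rw [mul_pow]; field_simp; norm_num
  have e6 : 0 < w * (κA / (16 * D) * (M * r) ^ n) := by positivity
  have e7 : w * (a ^ n + κA / (16 * D) * (M * r) ^ n + κA / (16 * D) * (M * r) ^ n) ≤
      3 * (w * (κA / (16 * D) * (M * r) ^ n)) := by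
    have := mul_le_mul_of_nonneg_left e3 hw.le
    nlinarith
  linarith

/-- the pattern is realised by the right number of blocks of consecutive primes -/
def GoodB (κ : ℝ) (D k N : ℕ) (U : Finset ℤ) : Prop :=
  κ * Uni.CT (pat D U) * (N / Real.log N ^ (k + 1)) ≤ piC N (pat D U)

/-- a sequence without a good pattern -/
def BadV (κ : ℝ) (D k N : ℕ) {K : ℕ} (v : Fin K → ℤ) : Prop :=
  Function.Injective v ∧ ¬ ∃ U ⊆ univ.image v, U.card = k + 1 ∧ GoodB κ D k N U

open Classical in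
/-- **tuples without a good pattern are rare** -/
theorem rareB (k m : ℕ) (hkm : k + 1 ≤ m) : ∃ (K P0 : ℕ) (l : ℝ), 1 ≤ P0 ∧ 0 < l ∧
    (∀ p : ℕ, p.Prime → p ≤ k + 1 → p ∣ P0) ∧ ∀ lam c₁ : ℝ, 0 < lam → 0 < c₁ →
    ∃ κ : ℝ, 0 < κ ∧ ∀ᶠ N : ℕ in atTop, ∀ H : ℕ, lam * Real.log N ≤ H → (P0 : ℝ) * H ≤ l * Real.log N →
    (((Fintype.piFinset (fun _ : Fin K => Ico 0 (H : ℤ))).filter (fun v => BadV κ P0 k N v)).card : ℝ) ≤
      c₁ * (H : ℝ) ^ K := by
  have hm1 : 1 ≤ m := by omega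
  obtain ⟨K', hK', δ, hδ, hδ1, c0, hc0, hlow⟩ := low_holds m hm1
  obtain ⟨l0, hl0, hlowD⟩ := low_clean m K' δ c0 hδ (hδ1.trans (by norm_num)) hc0 hlow
  obtain ⟨n, hn⟩ : ∃ n, n = 4 * m * K' := ⟨_, rfl⟩
  have hn1 : 1 ≤ n := by rw [hn]; exact Nat.mul_pos (by omega) hK'
  have hkn : k + 1 ≤ n := by
    rw [hn]
    calc k + 1 ≤ 4 * m := by omega
      _ ≤ _ := Nat.le_mul_of_pos_right _ hK'
  have hn4 : n ≤ 4 * n ^ 2 := by nlinarith
  obtain ⟨D, hD⟩ : ∃ D, D = (4 * n ^ 2).factorial := ⟨_, rfl⟩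
  have hD1 : 1 ≤ D := by rw [hD]; exact Nat.factorial_pos _
  have hDr : (1 : ℝ) ≤ D := by exact_mod_cast hD1
  have hdvd : ∀ p : ℕ, p.Prime → p ≤ 4 * n ^ 2 → p ∣ D := by
    intro p hp hpn
    rw [hD]
    exact (hp.dvd_factorial).2 hpn
  refine ⟨4 * m * K', D, l0, hD1, hl0, fun p hp hpk => hdvd p hp (hpk.trans (hkn.trans hn4)), ?_⟩
  intro lam c₁ hlam hc₁
  rw [← hn]
  obtain ⟨κA, hκAd⟩ : ∃ κA, κA = min c₁ 1 := ⟨_, rfl⟩
  have hκA : 0 < κA := by rw [hκAd]; exact lt_min hc₁ one_pos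
  have hκA1 : κA ≤ 1 := by rw [hκAd]; exact min_le_right _ _
  have hκAc : κA ≤ c₁ := by rw [hκAd]; exact min_le_left _ _
  obtain ⟨Cs, hCs⟩ : ∃ Cs : ℝ, Cs = 8 := ⟨_, rfl⟩
  have hCs0 : 0 < Cs := by rw [hCs]; norm_num
  obtain ⟨κ', hκ', hfail⟩ := fail_smallK k m K' hkm hK' δ (c0 / 2) l0 hδ (by positivity) hlowD
    (κA / (16 * D * Cs ^ n)) (κA / (16 * D) * lam) (by positivity) (by positivity)
  have hn0 : (0 : ℝ) < n := by exact_mod_cast hn1
  obtain ⟨κ, hκd⟩ : ∃ κ, κ = κ' * κA / (32 * D * ((n : ℝ) ^ (k + 1) * Cs ^ n)) := ⟨_, rfl⟩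
  have hκ : 0 < κ := by rw [hκd]; positivity
  refine ⟨κ, hκ, ?_⟩
  have tN : Tendsto (fun N : ℕ => (N : ℝ)) atTop atTop := tendsto_natCast_atTop_atTop
  have tL : Tendsto (fun N : ℕ => Real.log (N : ℝ)) atTop atTop := Real.tendsto_log_atTop.comp tN
  filter_upwards [hfail, bad_convK k 2, num_ev lam 1 hlam, tL.eventually_ge_atTop l0] with N h1 h2 h3 h4
  obtain ⟨hy2, hy4, hA1, hA2, hL1⟩ := h3
  intro H hH hu
  obtain ⟨y, hy⟩ : ∃ y, y = ⌊Real.log (Real.log (N : ℝ))⌋₊ := ⟨_, rfl⟩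
  obtain ⟨M0, hM0⟩ : ∃ M0, M0 = ⌊l0 * Real.log (N : ℝ)⌋₊ := ⟨_, rfl⟩
  rw [← hy] at h1 h2 hy2 hy4
  rw [← hM0] at h1
  have hL0 : 0 < Real.log (N : ℝ) := by linarith
  have hM02 : M0 ≤ ⌊Real.log (N : ℝ) ^ (2 : ℝ)⌋₊ := by
    rw [hM0]
    apply Nat.floor_le_floor
    rw [Real.rpow_two, sq]
    exact mul_le_mul_of_nonneg_right h4 hL0.le
  have hHpos : 1 ≤ H := by
    have : (1 : ℝ) ≤ H := hA1.trans hH
    exact_mod_cast this
  have hH0 : (0 : ℝ) < H := by exact_mod_cast hHpos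
  by_contra hcon
  push Not at hcon
  obtain ⟨Bd, hBd⟩ : ∃ Bd, Bd = (Fintype.piFinset (fun _ : Fin n => Ico 0 (H : ℤ))).filter
      (fun v => BadV κ D k N v) := ⟨_, rfl⟩
  have hBdc : c₁ * (H : ℝ) ^ n < Bd.card := by
    rw [hBd]
    exact hcon
  -- the window
  obtain ⟨V, hV⟩ : ∃ V : Finset ℕ, V = (Ico 0 (0 + H)).image (fun x => D * x) := ⟨_, rfl⟩
  have hVM : ∀ t ∈ V, t ≤ M0 ∧ D ∣ t := by
    intro t ht
    rw [hV] at ht
    obtain ⟨x, hx, rfl⟩ := mem_image.1 ht
    refine ⟨?_, Dvd.intro _ rfl⟩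
    rw [hM0]
    apply Nat.le_floor
    have hx2 : x ≤ H := by
      have := (mem_Ico.1 hx).2
      omega
    have e4 : (x : ℝ) ≤ H := by exact_mod_cast hx2
    push_cast
    exact (mul_le_mul_of_nonneg_left e4 (by linarith)).trans hu
  -- the configurations
  have hcI : Fintype.card (Fin (4 * m) × Fin K') = n := by
    rw [Fintype.card_prod, Fintype.card_fin, Fintype.card_fin, hn]
  obtain ⟨e, -⟩ : ∃ e : Fin (4 * m) × Fin K' ≃ Fin n, True :=
    ⟨(Fintype.equivFinOfCardEq hcI), trivial⟩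
  obtain ⟨τ, hτ⟩ : ∃ τ : (Fin n → ℤ) → (Fin (4 * m) × Fin K' → ℕ), τ = fun v x => D * (v (e x)).toNat := ⟨_, rfl⟩
  obtain ⟨Ac, hAc⟩ : ∃ Ac, Ac = Bd.image τ := ⟨_, rfl⟩
  have hBd0 : ∀ v ∈ Bd, ∀ i, 0 ≤ v i ∧ v i < H := by
    intro v hv i
    rw [hBd, mem_filter, Fintype.mem_piFinset] at hv
    exact mem_Ico.1 (hv.1 i)
  have hAcc : Ac.card = Bd.card := by
    rw [hAc]
    apply card_image_of_injOn
    intro x hx x' hx' hxx
    funext i
    have e1 := congrFun hxx (e.symm i)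
    rw [hτ] at e1
    simp only [Equiv.apply_symm_apply] at e1
    have e2 := Nat.eq_of_mul_eq_mul_left hD1 e1
    have e3 := hBd0 x hx i
    have e4 := hBd0 x' hx' i
    omega
  have hAcV : ∀ A ∈ Ac, ∀ x, A x ∈ V := by
    intro A hA x
    rw [hAc] at hA
    obtain ⟨v, hv, rfl⟩ := mem_image.1 hA
    rw [hτ, hV]
    have e3 := hBd0 v hv (e x)
    exact mem_image_of_mem _ (mem_Ico.2 ⟨Nat.zero_le _, by omega⟩)
  have hAcI : ∀ A ∈ Ac, Function.Injective A := by
    intro A hA x x' hxx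
    rw [hAc] at hA
    obtain ⟨v, hv, rfl⟩ := mem_image.1 hA
    rw [hτ] at hxx
    simp only at hxx
    have e2 := Nat.eq_of_mul_eq_mul_left hD1 hxx
    have e3 := hBd0 v hv (e x)
    have e4 := hBd0 v hv (e x')
    have e5 : v (e x) = v (e x') := by omega
    rw [hBd, mem_filter] at hv
    exact e.injective (hv.2.1 e5)
  -- the bad sets
  obtain ⟨Xc, hXc⟩ : ∃ Xc, Xc = (V.powersetCard (k + 1)).filter (fun X =>
    κ' * nGG (fun b X => GoodK κ' k N y b X) y X ≤ 2 * κ * Uni.gT (Uni.WW y) X) := ⟨_, rfl⟩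
  obtain ⟨F, hF⟩ : ∃ F : ℕ → Finset (Fin (4 * m) × Fin K' → ℕ),
    F = fun b => FailK m K' k κ' N y b (Sb y V b) := ⟨_, rfl⟩
  have : Nonempty (Fin (4 * m) × Fin K') := by
    rw [← Fintype.card_pos_iff, hcI]
    omega
  have hup := classArg2 (ι := Fin (4 * m) × Fin K') k y (by rw [hcI]; exact hkn) κ' κ
    (κA / (16 * D * Cs ^ n)) (κA / (16 * D) * lam * rho y * Real.log N)
    (Cs * (H * rD D y)) hκ' hκ.le (by positivity)
    (by have := (rho_pos y).le; positivity) (by have := (rD_pos D y).le; positivity) V Ac Xc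
    (fun b X => GoodK κ' k N y b X) F hAcV
    (by
      intro b A hA hcop _ hAF
      have hAS : ∀ x, A x ∈ Sb y V b := by
        intro x
        unfold Sb
        rw [mem_filter]
        exact ⟨hAcV A hA x, hcop x⟩
      rw [hF] at hAF
      simp only [mem_FailK, not_and, not_forall, not_not] at hAF
      obtain ⟨U, hU1, hU2, hU3⟩ := hAF hAS (hAcI A hA)
      refine ⟨U, ?_, hU1, hU3⟩
      rw [hXc, mem_filter, mem_powersetCard]
      have hUV : U ⊆ V := by
        intro t ht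
        obtain ⟨x, _, rfl⟩ := mem_image.1 (hU1 ht)
        exact hAcV A hA x
      refine ⟨⟨hUV, hU2⟩, ?_⟩
      rw [hAc] at hA
      obtain ⟨v, hv, rfl⟩ := mem_image.1 hA
      have hv0 := hBd0 v hv
      obtain ⟨U', hU'⟩ : ∃ U', U' = (univ.image v).filter (fun z => D * z.toNat ∈ U) := ⟨_, rfl⟩
      have hU'0 : ∀ z ∈ U', 0 ≤ z := by
        intro z hz
        rw [hU', mem_filter] at hz
        obtain ⟨i, _, rfl⟩ := mem_image.1 hz.1
        exact (hv0 i).1
      have himg : U'.image (fun z => D * z.toNat) = U := by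
        ext t
        rw [mem_image]
        constructor
        · rintro ⟨z, hz, rfl⟩
          rw [hU', mem_filter] at hz
          exact hz.2
        · intro ht
          obtain ⟨x, _, hx⟩ := mem_image.1 (hU1 ht)
          rw [hτ] at hx
          simp only at hx
          refine ⟨v (e x), ?_, hx⟩
          rw [hU', mem_filter]
          exact ⟨mem_image_of_mem v (mem_univ _), by rw [hx]; exact ht⟩
      have hU'c : U'.card = k + 1 := by
        rw [← hU2, ← himg]
        symm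
        apply card_image_of_injOn
        intro z hz z' hz' h
        have e2 := Nat.eq_of_mul_eq_mul_left hD1 h
        have e3 := hU'0 z hz
        have e4 := hU'0 z' hz'
        omega
      have hUne : U'.Nonempty := by rw [← card_pos]; omega
      have hps := pat_shift (D := D) hU'0 hUne
      rw [himg] at hps
      rw [hBd, mem_filter] at hv
      have hbad : ¬ GoodB κ D k N U' := by
        intro hg
        refine hv.2.2 ⟨U', ?_, hU'c, hg⟩
        rw [hU']
        exact filter_subset _ _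
      unfold GoodB at hbad
      rw [not_le] at hbad
      have hpc : (pat D U').card = k + 1 := by rw [pat_card hD1, hU'c]
      rw [← hps]
      refine h2 κ κ' hκ.le hκ' (pat D U') (D * (mn U').toNat) hpc (fun t ht => ?_) hbad
      have : t + D * (mn U').toNat ∈ (pat D U').image (fun t => t + D * (mn U').toNat) :=
        mem_image_of_mem (fun t => t + D * (mn U').toNat) ht
      rw [hps] at this
      exact ((hVM _ (hUV this)).1).trans hM02)
    (fun X hX => by
      rw [hXc, mem_filter, mem_powersetCard] at hX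
      exact ⟨hX.1.2, hX.1.1, hX.2⟩)
    (fun b => by
      have e1 : 4 ^ (y / 2) ≤ H := by
        have e2 : ((4 ^ (y / 2) : ℕ) : ℝ) ≤ (H : ℝ) := by
          push_cast
          exact hy4.trans hH
        exact_mod_cast e2
      have e3 := shift_upper D y b 0 H hy2 e1
      have e4 : (Sb y V b).card ≤
          ((Ico 0 (0 + H)).filter (fun x => Nat.Coprime (Uni.WW y) (b + D * x))).card := by
        unfold Sb
        rw [hV, filter_image]
        exact card_image_le
      rw [hCs]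
      calc ((Sb y V b).card : ℝ) ≤
          (((Ico 0 (0 + H)).filter (fun x => Nat.Coprime (Uni.WW y) (b + D * x))).card : ℝ) := by
            exact_mod_cast e4
        _ ≤ 8 * (H : ℝ) * rD D y := e3
        _ = _ := by ring)
    (fun b hb => by
      rw [hcI, hF, hn]
      have h5 := h1 b (Sb y V b) (fun t ht => ?_) (fun t ht => ?_) hb
      · rw [← hn] at h5 ⊢
        exact h5
      · unfold Sb at ht
        exact (hVM t (mem_filter.1 ht).1).1
      · unfold Sb at ht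
        exact (mem_filter.1 ht).2)
  rw [hcI] at hup
  have hlo : (Ac.card : ℝ) * (1 / (2 * (D : ℝ)) * Uni.WW y * rD D y ^ n) ≤
      ∑ A ∈ Ac, (Uni.gT (Uni.WW y) (univ.image A) : ℝ) := by
    rw [← nsmul_eq_mul]
    apply card_nsmul_le_sum
    intro A hA
    refine gT_lower2 n D y hn1 hD1 hdvd (univ.image A) ?_ ?_
    · refine card_image_le.trans ?_
      rw [card_univ, hcI]
    · intro p hp hpD
      unfold Uni.nuT
      have h5 : (univ.image A).image (· % p) ⊆ {0} := by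
        intro r hr
        obtain ⟨t, ht, rfl⟩ := mem_image.1 hr
        obtain ⟨x, _, rfl⟩ := mem_image.1 ht
        rw [mem_singleton]
        exact Nat.mod_eq_zero_of_dvd (hpD.trans (hVM _ (hAcV A hA x)).2)
      have h6 := card_le_card h5
      rw [card_singleton] at h6
      exact lt_of_le_of_lt h6 hp.one_lt
  have hW0 : (0 : ℝ) < Uni.WW y := by exact_mod_cast Uni.WW_pos y
  have hrD := rD_pos D y
  have hcnt : κA * (H : ℝ) ^ n ≤ Ac.card := by
    rw [hAcc]
    refine le_trans ?_ hBdc.le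
    exact mul_le_mul_of_nonneg_right hκAc (by positivity)
  refine fincomp3 n k hn1 κA Cs κ' D H (rD D y) (κA / (16 * D) * lam * rho y * Real.log N) (Uni.WW y)
    Ac.card _ hκA hκA1 hCs0 hκ' hDr hH0 hrD (by have := (rho_pos y).le; positivity) hW0 ?_ hcnt hlo ?_
  · have e1 := rho_le_rD D y
    calc κA / (16 * D) * lam * rho y * Real.log N = κA / (16 * D) * ((lam * Real.log N) * rho y) := by ring
      _ ≤ κA / (16 * D) * (H * rD D y) := by
          have := (rho_pos y).le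
          gcongr
  · rw [hκd] at hup
    exact hup

end Pool.Agent.N688.RG
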